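import Mathlib
import Pool.Agent.Helper398.EEFinal

set_option autoImplicit false

open Finset

namespace Pool.Agent.R525.SubsetSumAll

open Pool.Agent.Helper398

/-- a nonzero element of a finitely generated abelian group survives in some `ZMod N`, `N ≠ 0` -/
theorem sep (G : Type) [AddCommGroup G] [AddGroup.FG G] (x : G) (hx : x ≠ 0) :
    ∃ (N : ℕ) (_ : N ≠ 0) (f : G →+ ZMod N), f x ≠ 0 := by
  classical
  obtain ⟨n, ι, _, p, hp, e, ⟨g⟩⟩ := AddCommGroup.equiv_free_prod_directSum_zmod G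
  have hgx : g x ≠ 0 := fun h => hx (by simpa using (g.map_eq_zero_iff).1 h)
  by_cases h1 : (g x).1 = 0
  · have h2 : (g x).2 ≠ 0 := fun h2 => hgx (Prod.ext h1 h2)
    obtain ⟨i, hi⟩ : ∃ i, (g x).2 i ≠ 0 := by
      by_contra hcon
      push Not at hcon
      exact h2 (DFinsupp.ext hcon)
    refine ⟨p i ^ e i, pow_ne_zero _ (hp i).ne_zero,
      ((DFinsupp.evalAddMonoidHom i).comp (AddMonoidHom.snd _ _)).comp g.toAddMonoidHom, ?_⟩
    exact hi
  · obtain ⟨i, hi⟩ : ∃ i, (g x).1 i ≠ 0 := by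
      by_contra hcon
      push Not at hcon
      exact h1 (Finsupp.ext hcon)
    refine ⟨((g x).1 i).natAbs + 1, by omega,
      (((Int.castAddHom (ZMod (((g x).1 i).natAbs + 1))).comp (Finsupp.applyAddHom i)).comp
        (AddMonoidHom.fst _ _)).comp g.toAddMonoidHom, ?_⟩
    intro h0
    have h3 : (((g x).1 i : ℤ) : ZMod (((g x).1 i).natAbs + 1)) = 0 := h0
    rw [ZMod.intCast_zmod_eq_zero_iff_dvd] at h3
    have h4 := Int.natAbs_dvd_natAbs.2 h3
    have h5 := Nat.le_of_dvd (by omega) h4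
    have h6 : (((((g x).1 i).natAbs + 1 : ℕ) : ℤ)).natAbs = ((g x).1 i).natAbs + 1 :=
      Int.natAbs_natCast _
    omega

/-- finitely many nonzero elements of a finitely generated abelian group survive in some finite
quotient -/
theorem sep_finset (G : Type) [AddCommGroup G] [AddGroup.FG G] (D : Finset G)
    (hD : ∀ d ∈ D, d ≠ 0) :
    ∃ (H : Type) (_ : AddCommGroup H) (_ : Finite H) (f : G →+ H), ∀ d ∈ D, f d ≠ 0 := by
  classical
  choose N hN f hf using fun d : D => sep G d.1 (hD d.1 d.2)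
  haveI : ∀ d : D, NeZero (N d) := fun d => ⟨hN d⟩
  refine ⟨∀ d : D, ZMod (N d), inferInstance, inferInstance, AddMonoidHom.mk' (fun x d => f d x)
    (fun a b => funext fun d => map_add _ _ _), ?_⟩
  intro d hd h0
  exact hf ⟨d, hd⟩ (congrFun h0 ⟨d, hd⟩)

theorem main_fg (M : ℕ) (hM : ∀ (G : Type) [AddCommGroup G] [Finite G] [DecidableEq G]
    (A : Finset G), ZSF A → M ≤ A.card → A.card ^ 2 / 2 + 2 ≤ A.subsetSum.card)
    (G : Type) [AddCommGroup G] [AddGroup.FG G] [DecidableEq G]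
    (A : Finset G) (hA : ZSF A) (hMA : M ≤ A.card) :
    A.card ^ 2 / 2 + 2 ≤ A.subsetSum.card := by
  classical
  obtain ⟨H, _, _, f, hf⟩ := sep_finset G
    (((A.subsetSum ×ˢ A.subsetSum).image (fun z => z.1 - z.2)).filter (fun d => d ≠ 0))
    (fun d hd => (Finset.mem_filter.1 hd).2)
  have hinj : Set.InjOn f (A.subsetSum : Set G) := by
    intro x hx y hy hxy
    by_contra hne
    have hd : x - y ∈ (((A.subsetSum ×ˢ A.subsetSum).image (fun z => z.1 - z.2)).filter
        (fun d => d ≠ 0)) := by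
      rw [Finset.mem_filter, Finset.mem_image]
      exact ⟨⟨(x, y), Finset.mem_product.2 ⟨hx, hy⟩, rfl⟩, sub_ne_zero.2 hne⟩
    apply hf _ hd
    rw [map_sub, hxy, sub_self]
  have hAs : ∀ a ∈ A, a ∈ A.subsetSum := fun a ha => by
    rw [Finset.mem_subsetSum_iff]
    exact ⟨{a}, Finset.singleton_subset_iff.2 ha, Finset.sum_singleton _ _⟩
  have hinjA : Set.InjOn f (A : Set G) := hinj.mono (fun a ha => hAs a ha)
  have h0s : (0 : G) ∈ A.subsetSum := by
    rw [Finset.mem_subsetSum_iff]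
    exact ⟨∅, Finset.empty_subset _, Finset.sum_empty⟩
  have key : ∀ B' ⊆ A.image f, ∃ B ⊆ A, B' = B.image f ∧ ∑ b ∈ B', b = f (∑ b ∈ B, b) := by
    intro B' hB'
    obtain ⟨B, hB, rfl⟩ := Finset.subset_image_iff.1 hB'
    have hB2 : B ⊆ A := fun b hb => hB hb
    refine ⟨B, hB2, rfl, ?_⟩
    rw [Finset.sum_image (fun x hx y hy h => hinjA (hB2 hx) (hB2 hy) h), map_sum]
  have hcard : (A.image f).card = A.card := Finset.card_image_of_injOn hinjA
  have h1 := hM H (A.image f) ?_ (by rw [hcard]; exact hMA)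
  · rw [hcard] at h1
    refine h1.trans ?_
    have h2 : (A.image f).subsetSum ⊆ A.subsetSum.image f := by
      intro s hs
      rw [Finset.mem_subsetSum_iff] at hs
      obtain ⟨B', hB', rfl⟩ := hs
      obtain ⟨B, hB, -, hsum⟩ := key B' hB'
      rw [hsum]
      refine Finset.mem_image_of_mem _ ?_
      rw [Finset.mem_subsetSum_iff]
      exact ⟨B, hB, rfl⟩
    exact (Finset.card_le_card h2).trans Finset.card_image_le
  · intro B' hB' hne h0
    obtain ⟨B, hB, rfl, hsum⟩ := key B' hB'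
    rw [hsum] at h0
    have hBne : B.Nonempty := Finset.image_nonempty.1 hne
    have h3 : ∑ b ∈ B, b ∈ A.subsetSum := by
      rw [Finset.mem_subsetSum_iff]
      exact ⟨B, hB, rfl⟩
    exact hA B hB hBne (hinj h3 h0s (by rw [h0, map_zero]))

theorem main_all : ∃ M : ℕ, ∀ (G : Type) [AddCommGroup G] [DecidableEq G]
    (A : Finset G), ZSF A → M ≤ A.card → A.card ^ 2 / 2 + 2 ≤ A.subsetSum.card := by
  obtain ⟨M, hM⟩ := main_exact
  refine ⟨M, ?_⟩
  intro G _ _ A hZ hA
  haveI : AddGroup.FG (AddSubgroup.closure (A : Set G)) :=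
    (AddGroup.fg_iff_addSubgroup_fg _).2 ⟨A, rfl⟩
  have h1 := main_fg M hM (AddSubgroup.closure (A : Set G))
    (toSub (AddSubgroup.closure (A : Set G)) A) (ZSF_toSub _ A hZ)
  have h2 : (toSub (AddSubgroup.closure (A : Set G)) A).card = A.card := by
    rw [card_toSub, inSub_closure]
  rw [h2] at h1
  refine (h1 hA).trans ?_
  apply Finset.card_le_card_of_injOn (fun x : AddSubgroup.closure (A : Set G) => (x : G))
  · intro x hx
    rw [Finset.mem_coe, Finset.mem_subsetSum_iff] at hx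
    obtain ⟨B, hB, rfl⟩ := hx
    rw [Finset.mem_coe, Finset.mem_subsetSum_iff]
    refine ⟨B.map (Function.Embedding.subtype _), ?_, (sum_coe_sub _ B).symm⟩
    intro y hy
    rw [Finset.mem_map] at hy
    obtain ⟨z, hz, rfl⟩ := hy
    exact (mem_toSub _ _ _).1 (hB hz)
  · intro x _ y _ hxy
    exact Subtype.ext hxy

end Pool.Agent.R525.SubsetSumAll
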