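import Mathlib

set_option autoImplicit false

open Finset

namespace Pool.Agent.R525.Tesler

/-- internal form of the hook sum conditions -/
def IT (α : ℕ → ℕ) (n : ℕ) (A : Matrix (Fin n) (Fin n) ℕ) : Prop :=
  (∀ i j, j < i → A i j = 0) ∧ ∀ i : Fin n, ∑ j, A i j + A i i = α i + ∑ j, A j i

/-- extension of a Tesler matrix by a row and a column -/
def E {n : ℕ} (s : ℕ) (B : Matrix (Fin n) (Fin n) ℕ) (a : Fin n → ℕ) :
    Matrix (Fin (n + 1)) (Fin (n + 1)) ℕ :=
  Fin.snoc (α := fun _ => Fin (n + 1) → ℕ)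
    (fun i => Fin.snoc (α := fun _ => ℕ) (fun j => if i = j then a i else B i j) (B i i - a i))
    (Fin.snoc (α := fun _ => ℕ) (fun _ => 0) (s + ∑ i, (B i i - a i)))

variable {n : ℕ}

theorem E_cc (s : ℕ) (B : Matrix (Fin n) (Fin n) ℕ) (a : Fin n → ℕ) (i j : Fin n) :
    E s B a i.castSucc j.castSucc = if i = j then a i else B i j := by
  simp [E]

theorem E_cl (s : ℕ) (B : Matrix (Fin n) (Fin n) ℕ) (a : Fin n → ℕ) (i : Fin n) :
    E s B a i.castSucc (Fin.last n) = B i i - a i := by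
  simp [E]

theorem E_lc (s : ℕ) (B : Matrix (Fin n) (Fin n) ℕ) (a : Fin n → ℕ) (j : Fin n) :
    E s B a (Fin.last n) j.castSucc = 0 := by
  simp [E]

theorem E_ll (s : ℕ) (B : Matrix (Fin n) (Fin n) ℕ) (a : Fin n → ℕ) :
    E s B a (Fin.last n) (Fin.last n) = s + ∑ i, (B i i - a i) := by
  simp [E]

/-- restriction -/
def R (A : Matrix (Fin (n + 1)) (Fin (n + 1)) ℕ) : Matrix (Fin n) (Fin n) ℕ := fun i j =>
  if i = j then A i.castSucc i.castSucc + A i.castSucc (Fin.last n) else A i.castSucc j.castSucc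

theorem sum_ite_row (f : Fin n → ℕ) (i : Fin n) (x : ℕ) :
    ∑ j, (if i = j then x else f j) + f i = ∑ j, f j + x := by
  have h1 := Finset.add_sum_erase univ (fun j => if i = j then x else f j) (Finset.mem_univ i)
  have h2 := Finset.add_sum_erase univ f (Finset.mem_univ i)
  have h3 : ∑ j ∈ univ.erase i, (if i = j then x else f j) = ∑ j ∈ univ.erase i, f j := by
    refine Finset.sum_congr rfl fun j hj => ?_
    rw [if_neg (Finset.ne_of_mem_erase hj).symm]
  rw [if_pos rfl] at h1
  rw [← h1, ← h2, h3]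
  ring

theorem IT_E (α : ℕ → ℕ) (B : Matrix (Fin n) (Fin n) ℕ) (a : Fin n → ℕ) (hB : IT α n B)
    (ha : ∀ i, a i ≤ B i i) : IT α (n + 1) (E (α n) B a) := by
  obtain ⟨h1, h2⟩ := hB
  constructor
  · intro i j
    refine Fin.lastCases ?_ (fun i => ?_) i
    · refine Fin.lastCases ?_ (fun j => ?_) j
      · intro h; exact absurd h (lt_irrefl _)
      · intro _; exact E_lc _ _ _ _
    · refine Fin.lastCases ?_ (fun j => ?_) j
      · intro h; exact absurd h (not_lt.2 (Fin.le_last _))
      · intro h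
        rw [Fin.castSucc_lt_castSucc_iff] at h
        rw [E_cc, if_neg (ne_of_gt h)]
        exact h1 i j h
  · intro i
    refine Fin.lastCases ?_ (fun i => ?_) i
    · rw [Fin.sum_univ_castSucc, Fin.sum_univ_castSucc]
      simp only [E_lc, E_ll, E_cl, Finset.sum_const_zero, Fin.val_last]
      ring
    · rw [Fin.sum_univ_castSucc, Fin.sum_univ_castSucc]
      simp only [E_cc, E_cl, E_lc, if_true, Fin.val_castSucc]
      have e1 := sum_ite_row (fun j => B i j) i (a i)
      have e2 := sum_ite_row (fun j => B j i) i (a i)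
      have e3 : ∑ j, (if j = i then a j else B j i) = ∑ j, (if i = j then a i else B j i) := by
        refine Finset.sum_congr rfl fun j _ => ?_
        by_cases h : j = i
        · subst h; simp
        · rw [if_neg h, if_neg (Ne.symm h)]
      rw [e3]
      have e4 := h2 i
      have e5 := ha i
      omega

theorem R_spec (α : ℕ → ℕ) (A : Matrix (Fin (n + 1)) (Fin (n + 1)) ℕ) (hA : IT α (n + 1) A) :
    IT α n (R A) ∧ (∀ i, A i.castSucc i.castSucc ≤ R A i i) ∧
      E (α n) (R A) (fun i => A i.castSucc i.castSucc) = A := by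
  obtain ⟨h1, h2⟩ := hA
  refine ⟨⟨?_, ?_⟩, ?_, ?_⟩
  · intro i j h
    unfold R
    rw [if_neg (ne_of_gt h)]
    exact h1 _ _ (Fin.castSucc_lt_castSucc_iff.2 h)
  · intro i
    have e0 := h2 i.castSucc
    rw [Fin.sum_univ_castSucc, Fin.sum_univ_castSucc, h1 _ _ (Fin.castSucc_lt_last i)] at e0
    simp only [Fin.val_castSucc] at e0
    unfold R
    have e1 := sum_ite_row (fun j : Fin n => A i.castSucc j.castSucc) i
      (A i.castSucc i.castSucc + A i.castSucc (Fin.last n))
    have e2 := sum_ite_row (fun j : Fin n => A j.castSucc i.castSucc) i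
      (A i.castSucc i.castSucc + A i.castSucc (Fin.last n))
    have e3 : ∑ j : Fin n, (if j = i then A j.castSucc j.castSucc + A j.castSucc (Fin.last n)
        else A j.castSucc i.castSucc) = ∑ j : Fin n, (if i = j then
          A i.castSucc i.castSucc + A i.castSucc (Fin.last n) else A j.castSucc i.castSucc) := by
      refine Finset.sum_congr rfl fun j _ => ?_
      by_cases h : j = i
      · subst h; simp
      · rw [if_neg h, if_neg (Ne.symm h)]
    rw [e3]
    simp only [if_true] at e1 e2 ⊢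
    omega
  · intro i
    unfold R
    rw [if_pos rfl]
    exact Nat.le_add_right _ _
  · funext i j
    refine Fin.lastCases ?_ (fun i => ?_) i
    · refine Fin.lastCases ?_ (fun j => ?_) j
      · rw [E_ll]
        have e0 := h2 (Fin.last n)
        rw [Fin.sum_univ_castSucc, Fin.sum_univ_castSucc] at e0
        have e1 : ∑ j : Fin n, A (Fin.last n) j.castSucc = 0 :=
          Finset.sum_eq_zero fun j _ => h1 _ _ (Fin.castSucc_lt_last j)
        rw [e1] at e0
        have e2 : ∑ i : Fin n, (R A i i - A i.castSucc i.castSucc) =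
            ∑ i : Fin n, A i.castSucc (Fin.last n) := by
          refine Finset.sum_congr rfl fun i _ => ?_
          unfold R
          rw [if_pos rfl, Nat.add_sub_cancel_left]
        rw [e2]
        simp only [Fin.val_last] at e0
        omega
      · rw [E_lc, h1 _ _ (Fin.castSucc_lt_last j)]
    · refine Fin.lastCases ?_ (fun j => ?_) j
      · rw [E_cl]
        unfold R
        rw [if_pos rfl, Nat.add_sub_cancel_left]
      · rw [E_cc]
        by_cases h : i = j
        · subst h; simp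
        · rw [if_neg h]
          unfold R
          rw [if_neg h]

/-- all Tesler matrices with the given hook sums -/
def T (α : ℕ → ℕ) : (n : ℕ) → Finset (Matrix (Fin n) (Fin n) ℕ)
  | 0 => {fun _ _ => 0}
  | n + 1 => (T α n).biUnion fun B =>
      (Fintype.piFinset fun i => Finset.range (B i i + 1)).image (E (α n) B)

theorem mem_T (α : ℕ → ℕ) : ∀ (n : ℕ) (A : Matrix (Fin n) (Fin n) ℕ), A ∈ T α n ↔ IT α n A := by
  intro n
  induction n with
  | zero =>
    intro A
    have h1 : A = fun _ _ => 0 := funext fun i => i.elim0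
    constructor
    · intro _
      exact ⟨fun i => i.elim0, fun i => i.elim0⟩
    · intro _
      rw [h1]
      exact Finset.mem_singleton_self _
  | succ n ih =>
    intro A
    simp only [T, Finset.mem_biUnion, Finset.mem_image, Fintype.mem_piFinset, Finset.mem_range]
    constructor
    · rintro ⟨B, hB, a, ha, rfl⟩
      exact IT_E α B a ((ih B).1 hB) fun i => Nat.lt_succ_iff.1 (ha i)
    · intro hA
      obtain ⟨h1, h2, h3⟩ := R_spec α A hA
      exact ⟨R A, (ih _).2 h1, _, fun i => Nat.lt_succ_iff.2 (h2 i), h3⟩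

theorem E_inj (s : ℕ) (B B' : Matrix (Fin n) (Fin n) ℕ) (a a' : Fin n → ℕ)
    (ha : ∀ i, a i ≤ B i i) (ha' : ∀ i, a' i ≤ B' i i) (h : E s B a = E s B' a') :
    B = B' ∧ a = a' := by
  have h1 : ∀ i, a i = a' i := by
    intro i
    have := congrFun (congrFun h i.castSucc) i.castSucc
    rw [E_cc, E_cc, if_pos rfl, if_pos rfl] at this
    exact this
  refine ⟨?_, funext h1⟩
  funext i j
  by_cases hij : i = j
  · subst hij
    have := congrFun (congrFun h i.castSucc) (Fin.last n)
    rw [E_cl, E_cl] at this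
    have := ha i
    have := ha' i
    have := h1 i
    omega
  · have := congrFun (congrFun h i.castSucc) j.castSucc
    rw [E_cc, E_cc, if_neg hij, if_neg hij] at this
    exact this

theorem diag_E (s : ℕ) (B : Matrix (Fin n) (Fin n) ℕ) (a : Fin n → ℕ) :
    (fun i => E s B a i i) = Fin.snoc (α := fun _ => ℕ) a (s + ∑ i, (B i i - a i)) := by
  funext i
  refine Fin.lastCases ?_ (fun i => ?_) i
  · rw [E_ll, Fin.snoc_last]
  · rw [E_cc, if_pos rfl, Fin.snoc_castSucc]

theorem sum_T (α : ℕ → ℕ) (n : ℕ) (G : (Fin (n + 1) → ℕ) → ℝ) :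
    ∑ A ∈ T α (n + 1), G (fun i => A i i) = ∑ B ∈ T α n,
      ∑ a ∈ Fintype.piFinset (fun i => Finset.range (B i i + 1)),
        G (Fin.snoc (α := fun _ => ℕ) a (α n + ∑ i, (B i i - a i))) := by
  have hle : ∀ (B : Matrix (Fin n) (Fin n) ℕ) (a : Fin n → ℕ),
      a ∈ Fintype.piFinset (fun i => Finset.range (B i i + 1)) → ∀ i, a i ≤ B i i := by
    intro B a ha i
    rw [Fintype.mem_piFinset] at ha
    exact Nat.lt_succ_iff.1 (Finset.mem_range.1 (ha i))
  simp only [T]
  rw [Finset.sum_biUnion]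
  · refine Finset.sum_congr rfl fun B _ => ?_
    rw [Finset.sum_image]
    · refine Finset.sum_congr rfl fun a _ => ?_
      rw [diag_E]
    · intro a ha a' ha' h
      exact (E_inj (α n) B B a a' (hle B a ha) (hle B a' ha') h).2
  · intro B _ B' _ hne
    rw [Function.onFun, Finset.disjoint_left]
    intro A hA hA'
    rw [Finset.mem_image] at hA hA'
    obtain ⟨a, ha, rfl⟩ := hA
    obtain ⟨a', ha', h⟩ := hA'
    exact hne (E_inj (α n) B' B a' a (hle B' a' ha') (hle B a ha) h).1.symm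

theorem trace_T (α : ℕ → ℕ) (n : ℕ) (A : Matrix (Fin n) (Fin n) ℕ) (hA : A ∈ T α n) :
    ∑ i, A i i = ∑ i ∈ Finset.range n, α i := by
  rw [mem_T] at hA
  have h1 : ∑ i, (∑ j, A i j + A i i) = ∑ i : Fin n, (α i + ∑ j, A j i) :=
    Finset.sum_congr rfl fun i _ => hA.2 i
  rw [Finset.sum_add_distrib, Finset.sum_add_distrib, Finset.sum_comm] at h1
  rw [← Fin.sum_univ_eq_sum_range]
  omega

/-- product of binomial coefficients over the diagonal -/
noncomputable def F (t : ℕ) (d : Fin n → ℕ) : ℝ := ∏ i, ((d i + t).choose t : ℝ)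

theorem F_pos (t : ℕ) (d : Fin n → ℕ) : 0 < F t d :=
  Finset.prod_pos fun i _ => by
    have := Nat.choose_pos (Nat.le_add_left t (d i))
    exact_mod_cast this

theorem F_zero (d : Fin n → ℕ) : F 0 d = 1 := by simp [F]

theorem F_snoc (t : ℕ) (a : Fin n → ℕ) (s : ℕ) :
    F t (Fin.snoc (α := fun _ => ℕ) a s : Fin (n + 1) → ℕ) = F t a * ((s + t).choose t : ℝ) := by
  unfold F
  rw [Fin.prod_univ_castSucc]
  simp

theorem sum_choose (t b : ℕ) :
    ∑ a ∈ Finset.range (b + 1), ((a + t).choose t : ℝ) = ((b + (t + 1)).choose (t + 1) : ℝ) := by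
  induction b with
  | zero => simp
  | succ b ih =>
    rw [Finset.sum_range_succ, ih]
    have : (b + 1 + (t + 1)).choose (t + 1) = (b + 1 + t).choose t + (b + (t + 1)).choose (t + 1) := by
      rw [show b + 1 + (t + 1) = (b + 1 + t) + 1 by ring, Nat.choose_succ_succ,
        show b + 1 + t = b + (t + 1) by ring]
    rw [this]
    push_cast
    ring

theorem sum_choose_mul (t b : ℕ) :
    ∑ a ∈ Finset.range (b + 1), ((a + t).choose t : ℝ) * ((b : ℝ) - a) =
      ((b : ℝ) / (t + 2)) * ((b + (t + 1)).choose (t + 1) : ℝ) := by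
  induction b with
  | zero => simp
  | succ b ih =>
    rw [Finset.sum_range_succ]
    have h1 : ∑ a ∈ Finset.range (b + 1), ((a + t).choose t : ℝ) * (((b + 1 : ℕ) : ℝ) - a) =
        ∑ a ∈ Finset.range (b + 1), ((a + t).choose t : ℝ) * ((b : ℝ) - a) +
        ∑ a ∈ Finset.range (b + 1), ((a + t).choose t : ℝ) := by
      rw [← Finset.sum_add_distrib]
      refine Finset.sum_congr rfl fun a _ => ?_
      push_cast
      ring
    rw [h1, ih, sum_choose, sub_self, mul_zero, add_zero]
    have h2 : (b + 1 + (t + 1)).choose (t + 1) * (b + 1) =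
        (b + 1 + (t + 1)) * (b + (t + 1)).choose (t + 1) := by
      have := Nat.add_one_mul_choose_eq (b + (t + 1)) b
      have e1 : (b + (t + 1)).choose b = (b + (t + 1)).choose (t + 1) :=
        Nat.choose_symm_add
      have e2 : (b + (t + 1) + 1).choose (b + 1) = (b + 1 + (t + 1)).choose (t + 1) := by
        rw [show b + (t + 1) + 1 = (b + 1) + (t + 1) by ring]
        exact Nat.choose_symm_add
      rw [e1, e2] at this
      rw [← this]
      ring
    have h3 : (((b + 1 + (t + 1)).choose (t + 1) : ℕ) : ℝ) * ((b : ℝ) + 1) =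
        ((b : ℝ) + t + 2) * (((b + (t + 1)).choose (t + 1) : ℕ) : ℝ) := by
      have : (((b + 1 + (t + 1)).choose (t + 1) * (b + 1) : ℕ) : ℝ) =
        (((b + 1 + (t + 1)) * (b + (t + 1)).choose (t + 1) : ℕ) : ℝ) := by rw [h2]
      push_cast at this
      linear_combination this
    have ht : (0 : ℝ) < (t : ℝ) + 2 := by positivity
    field_simp
    push_cast
    linear_combination (-1 : ℝ) * h3

theorem sum_F (t : ℕ) (b : Fin n → ℕ) :
    ∑ a ∈ Fintype.piFinset (fun i => Finset.range (b i + 1)), F t a = F (t + 1) b := by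
  have h := Finset.prod_univ_sum (fun i => Finset.range (b i + 1))
    (fun _ (x : ℕ) => ((x + t).choose t : ℝ))
  unfold F
  rw [← h]
  exact Finset.prod_congr rfl fun i _ => sum_choose t (b i)

theorem sum_F_mul (t : ℕ) (b : Fin n → ℕ) :
    ∑ a ∈ Fintype.piFinset (fun i => Finset.range (b i + 1)),
      F t a * ((∑ j, (b j - a j) : ℕ) : ℝ) = F (t + 1) b * (((∑ j, b j : ℕ) : ℝ) / (t + 2)) := by
  have h1 : ∀ a ∈ Fintype.piFinset (fun i => Finset.range (b i + 1)),
      F t a * ((∑ j, (b j - a j) : ℕ) : ℝ) =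
      ∑ j, ∏ i, (((a i + t).choose t : ℝ) * (if i = j then ((b i : ℝ) - a i) else 1)) := by
    intro a ha
    rw [Fintype.mem_piFinset] at ha
    push_cast
    rw [Finset.mul_sum]
    refine Finset.sum_congr rfl fun j _ => ?_
    rw [Finset.prod_mul_distrib, Finset.prod_ite_eq' univ j]
    have : a j ≤ b j := Nat.lt_succ_iff.1 (Finset.mem_range.1 (ha j))
    rw [if_pos (Finset.mem_univ j), Nat.cast_sub this]
    rfl
  rw [Finset.sum_congr rfl h1, Finset.sum_comm]
  have h2 : ∀ j ∈ (univ : Finset (Fin n)),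
      ∑ a ∈ Fintype.piFinset (fun i => Finset.range (b i + 1)),
        ∏ i, (((a i + t).choose t : ℝ) * (if i = j then ((b i : ℝ) - a i) else 1)) =
      F (t + 1) b * ((b j : ℝ) / (t + 2)) := by
    intro j _
    have h3 := Finset.prod_univ_sum (fun i => Finset.range (b i + 1))
      (fun i (x : ℕ) => (((x + t).choose t : ℝ) * (if i = j then ((b i : ℝ) - x) else 1)))
    rw [← h3]
    have h4 : ∀ i ∈ (univ : Finset (Fin n)), ∑ x ∈ Finset.range (b i + 1),
        (((x + t).choose t : ℝ) * (if i = j then ((b i : ℝ) - x) else 1)) =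
        ((b i + (t + 1)).choose (t + 1) : ℝ) * (if i = j then ((b i : ℝ) / (t + 2)) else 1) := by
      intro i _
      by_cases hij : i = j
      · simp only [hij, if_true]
        rw [sum_choose_mul]
        ring
      · simp only [if_neg hij, mul_one]
        exact sum_choose t (b i)
    rw [Finset.prod_congr rfl h4, Finset.prod_mul_distrib, Finset.prod_ite_eq' univ j,
      if_pos (Finset.mem_univ j)]
    rfl
  rw [Finset.sum_congr rfl h2, ← Finset.mul_sum, ← Finset.sum_div]
  push_cast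
  rfl

theorem one_add_sum_le_prod {ι : Type} (s : Finset ι) (x : ι → ℝ) (hx : ∀ i, 0 ≤ x i) :
    1 + ∑ i ∈ s, x i ≤ ∏ i ∈ s, (1 + x i) := by
  classical
  induction s using Finset.induction_on with
  | empty => simp
  | insert i s hi ih =>
    rw [Finset.sum_insert hi, Finset.prod_insert hi]
    have h1 : 0 ≤ ∑ i ∈ s, x i := Finset.sum_nonneg fun i _ => hx i
    have h2 := hx i
    nlinarith [mul_nonneg h2 h1]

theorem F_succ_ge (t : ℕ) (b : Fin n → ℕ) :
    (1 + ((∑ i, b i : ℕ) : ℝ) / (t + 1)) * F t b ≤ F (t + 1) b := by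
  have h1 : F (t + 1) b = F t b * ∏ i, (1 + (b i : ℝ) / (t + 1)) := by
    unfold F
    rw [← Finset.prod_mul_distrib]
    refine Finset.prod_congr rfl fun i _ => ?_
    have h2 : (b i + (t + 1)).choose (t + 1) * (t + 1) = (b i + t + 1) * (b i + t).choose t := by
      have := Nat.add_one_mul_choose_eq (b i + t) t
      rw [this]
      rfl
    have h3 : (((b i + (t + 1)).choose (t + 1) : ℕ) : ℝ) * ((t : ℝ) + 1) =
        ((b i : ℝ) + t + 1) * (((b i + t).choose t : ℕ) : ℝ) := by exact_mod_cast h2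
    have ht : (0 : ℝ) < (t : ℝ) + 1 := by positivity
    field_simp
    linear_combination h3
  rw [h1, mul_comm]
  refine mul_le_mul_of_nonneg_left ?_ (F_pos t b).le
  push_cast
  rw [Finset.sum_div]
  exact one_add_sum_le_prod univ _ fun i => by positivity

/-- weighted count -/
noncomputable def M (t : ℕ) (α : ℕ → ℕ) (n : ℕ) : ℝ := ∑ A ∈ T α n, F t (fun i => A i i)

theorem M_nonneg (t : ℕ) (α : ℕ → ℕ) (n : ℕ) : 0 ≤ M t α n :=
  Finset.sum_nonneg fun _ _ => (F_pos _ _).le

theorem M_zero (α : ℕ → ℕ) (n : ℕ) : M 0 α n = (T α n).card := by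
  unfold M
  simp [F_zero]

theorem M_succ_ge (t : ℕ) (α : ℕ → ℕ) (n : ℕ) :
    (1 + ((∑ i ∈ Finset.range n, α i : ℕ) : ℝ) / (t + 1)) * M t α n ≤ M (t + 1) α n := by
  unfold M
  rw [Finset.mul_sum]
  refine Finset.sum_le_sum fun A hA => ?_
  rw [← trace_T α n A hA]
  exact F_succ_ge t _

theorem M_zero_succ (α : ℕ → ℕ) (n : ℕ) : M 0 α (n + 1) = M 1 α n := by
  unfold M
  rw [sum_T]
  refine Finset.sum_congr rfl fun B _ => ?_
  rw [← sum_F 0]
  refine Finset.sum_congr rfl fun a _ => ?_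
  rw [F_zero, F_zero]

theorem M_one_succ (α : ℕ → ℕ) (n : ℕ) :
    M 1 α (n + 1) = ((α n : ℝ) + 1 + ((∑ i ∈ Finset.range n, α i : ℕ) : ℝ) / 3) * M 2 α n := by
  unfold M
  rw [sum_T, Finset.mul_sum]
  refine Finset.sum_congr rfl fun B hB => ?_
  have h1 : ∀ a ∈ Fintype.piFinset (fun i => Finset.range (B i i + 1)),
      F 1 (Fin.snoc (α := fun _ => ℕ) a (α n + ∑ i, (B i i - a i)) : Fin (n + 1) → ℕ) =
      ((α n : ℝ) + 1) * F 1 a + F 1 a * ((∑ j, (B j j - a j) : ℕ) : ℝ) := by
    intro a _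
    rw [F_snoc, Nat.choose_one_right]
    push_cast
    ring
  rw [Finset.sum_congr rfl h1, Finset.sum_add_distrib, ← Finset.mul_sum,
    sum_F 1 (fun i => B i i), sum_F_mul 1 (fun i => B i i), trace_T α n B hB]
  push_cast
  ring

theorem choose_two_add (s : ℕ) : (((1 + s) + 2).choose 2 : ℝ) = ((s : ℝ) + 3) * (s + 2) / 2 := by
  rw [Nat.cast_choose_two]
  push_cast
  ring

theorem choose_three_add (s : ℕ) :
    (((1 + s) + 3).choose 3 : ℝ) = ((s : ℝ) + 4) * (s + 3) * (s + 2) / 6 := by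
  have h := Nat.add_one_mul_choose_eq (1 + s + 2) 2
  have h2 : (((1 + s + 2 + 1).choose 3 : ℕ) : ℝ) * 3 = ((1 + s + 2 + 1 : ℕ) : ℝ) *
      (((1 + s + 2).choose 2 : ℕ) : ℝ) := by
    have : (((1 + s + 2 + 1) * (1 + s + 2).choose 2 : ℕ) : ℝ) =
      (((1 + s + 2 + 1).choose (2 + 1) * (2 + 1) : ℕ) : ℝ) := by rw [h]
    push_cast at this ⊢
    linear_combination -this
  rw [choose_two_add] at h2
  push_cast at h2
  have h3 : (((1 + s) + 3).choose 3 : ℝ) = (((1 + s + 2 + 1).choose 3 : ℕ) : ℝ) := by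
    norm_cast
  rw [h3]
  linear_combination h2 / 3

theorem M_two_succ (α : ℕ → ℕ) (n : ℕ) (hα : α n = 1) (s : ℝ)
    (hs : s = ((∑ i ∈ Finset.range n, α i : ℕ) : ℝ) / 4) :
    ((s + 3) * (s + 2) / 2) * M 3 α n ≤ M 2 α (n + 1) := by
  unfold M
  rw [sum_T, Finset.mul_sum]
  refine Finset.sum_le_sum fun B hB => ?_
  have h1 : ∀ a ∈ Fintype.piFinset (fun i => Finset.range (B i i + 1)),
      ((s + 3) * (s + 2) / 2) * F 2 a + (s + 5 / 2) * (F 2 a *
        ((∑ j, (B j j - a j) : ℕ) : ℝ) - s * F 2 a) ≤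
      F 2 (Fin.snoc (α := fun _ => ℕ) a (α n + ∑ i, (B i i - a i)) : Fin (n + 1) → ℕ) := by
    intro a _
    rw [F_snoc, hα, choose_two_add]
    have hF := (F_pos 2 a).le
    set S : ℝ := ((∑ j, (B j j - a j) : ℕ) : ℝ) with hS
    have : (0 : ℝ) ≤ F 2 a * (S - s) ^ 2 := by positivity
    nlinarith
  refine le_trans (le_of_eq ?_) (Finset.sum_le_sum h1)
  rw [Finset.sum_add_distrib, ← Finset.mul_sum, ← Finset.mul_sum, Finset.sum_sub_distrib,
    ← Finset.mul_sum, sum_F 2 (fun i => B i i), sum_F_mul 2 (fun i => B i i), trace_T α n B hB, hs]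
  push_cast
  ring

theorem M_three_succ (α : ℕ → ℕ) (n : ℕ) (hα : α n = 1) (s : ℝ)
    (hs : s = ((∑ i ∈ Finset.range n, α i : ℕ) : ℝ) / 5) :
    ((s + 4) * (s + 3) * (s + 2) / 6) * M 4 α n ≤ M 3 α (n + 1) := by
  have hs0 : 0 ≤ s := by rw [hs]; positivity
  unfold M
  rw [sum_T, Finset.mul_sum]
  refine Finset.sum_le_sum fun B hB => ?_
  have h1 : ∀ a ∈ Fintype.piFinset (fun i => Finset.range (B i i + 1)),
      ((s + 4) * (s + 3) * (s + 2) / 6) * F 3 a + ((3 * s ^ 2 + 18 * s + 26) / 6) * (F 3 a *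
        ((∑ j, (B j j - a j) : ℕ) : ℝ) - s * F 3 a) ≤
      F 3 (Fin.snoc (α := fun _ => ℕ) a (α n + ∑ i, (B i i - a i)) : Fin (n + 1) → ℕ) := by
    intro a _
    rw [F_snoc, hα, choose_three_add]
    have hF := (F_pos 3 a).le
    set S : ℝ := ((∑ j, (B j j - a j) : ℕ) : ℝ) with hS
    have hS0 : 0 ≤ S := by positivity
    have : (0 : ℝ) ≤ F 3 a * ((S - s) ^ 2 * (S + 2 * s + 9)) := by positivity
    nlinarith
  refine le_trans (le_of_eq ?_) (Finset.sum_le_sum h1)
  rw [Finset.sum_add_distrib, ← Finset.mul_sum, ← Finset.mul_sum, Finset.sum_sub_distrib,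
    ← Finset.mul_sum, sum_F 3 (fun i => B i i), sum_F_mul 3 (fun i => B i i), trace_T α n B hB, hs]
  push_cast
  ring

end Pool.Agent.R525.Tesler
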